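import Pool.Agent.R341.Uni15
import Pool.Agent.Run7.h168.UQ3

set_option autoImplicit false

/-! # Every level set of the smallest univoque base function is closed (MP_e299c6_nt, Q2)

`Ux x` is the set of the bases `q ∈ (1, 2]` for which `x` has exactly one `q`-expansion with digits `0`, `1`
(`Pool.Agent.R341.Uni.Ux`), and `q_s(x) = inf Ux x`. -/

namespace Pool.Agent.Results.MP_e299c6_nt.AllLevelSetsClosed

open Pool.Agent.R341.Uni

/-- **Q2, affirmative answer.** For every `x > 0` the set `Ux x` is not empty (so that its infimum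
`q_s(x)` is honest) and for every `q ∈ (1, 2]` the level set `{x > 0 | q_s(x) = q}` is closed in
`(0, ∞)`. -/
theorem result : (∀ x : ℝ, 0 < x → (Ux x).Nonempty) ∧
    ∀ q : ℝ, 1 < q → q ≤ 2 → IsClosed {x : Set.Ioi (0 : ℝ) | sInf (Ux (x : ℝ)) = q} := by
  refine ⟨fun x hx => ?_, fun Q hQ1 hQ2 => ?_⟩
  · obtain ⟨q, hq, -⟩ := F1 hx
    exact ⟨q, hq⟩
  rcases lt_or_eq_of_le hQ2 with h2 | h2
  · rw [← closure_subset_iff_isClosed]
    intro x hx
    rw [closure_subtype] at hx
    have hsub : Subtype.val '' {x : Set.Ioi (0 : ℝ) | sInf (Ux (x : ℝ)) = Q} ⊆ LvInf Q := by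
      rintro _ ⟨y, hy, rfl⟩
      exact ⟨y.2, hy⟩
    exact (Pool.Agent.Run7.h168.UQ.closed_gen hQ1 h2 x.2 (closure_mono hsub hx)).2
  · have hempty : {x : Set.Ioi (0 : ℝ) | sInf (Ux (x : ℝ)) = Q} = ∅ := by
      rw [Set.eq_empty_iff_forall_notMem]
      intro x hx
      have hx' : sInf (Ux (x : ℝ)) = Q := hx
      obtain ⟨q, hq, hqB⟩ := F1 x.2
      have h3 := csInf_le (bdd_Ux (x : ℝ)) hq
      have h4 : ((BB : ℚ) : ℝ) < 2 := by
        unfold BB
        norm_num
      rw [hx', h2] at h3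
      linarith
    rw [hempty]
    exact isClosed_empty

end Pool.Agent.Results.MP_e299c6_nt.AllLevelSetsClosed
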